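import Pool.Agent.H378Z.GenD

set_option autoImplicit false

open Set FirstOrder

namespace Pool.Agent.Results.MP_ec0437_lc.DimensionRaising

section Defs

variable (L : FirstOrder.Language.{0, 0}) {K : Type} [L.Structure K]

/-- The `L`-structure on the ordered field `K` expands the ordered field: addition, multiplication
and the order are definable without parameters. -/
def ExpandsOrderedField (K : Type) [L.Structure K] [Field K] [LinearOrder K] : Prop :=
  (∅ : Set K).Definable L {v : Fin 3 → K | v 0 + v 1 = v 2} ∧
  (∅ : Set K).Definable L {v : Fin 3 → K | v 0 * v 1 = v 2} ∧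
  (∅ : Set K).Definable L {v : Fin 2 → K | v 0 < v 1}

/-- Definably complete: each nonempty definable subset of `K` that is bounded above has a least upper
bound in `K`. -/
def DefinablyComplete (K : Type) [L.Structure K] [LinearOrder K] : Prop :=
  ∀ X : Set K, (univ : Set K).Definable L {v : Fin 1 → K | v 0 ∈ X} →
    X.Nonempty → BddAbove X → ∃ s : K, IsLUB X s

/-- A map `f : C → K^n`, `C ⊆ K^m`, is definable (with parameters) if its graph is. -/
def DefinableMapOn {m n : ℕ} (C : Set (Fin m → K)) (f : C → (Fin n → K)) : Prop :=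
  (univ : Set K).Definable L
    {v : Fin m ⊕ Fin n → K | ∃ x : C, x.1 = (fun i => v (Sum.inl i)) ∧ f x = fun j => v (Sum.inr j)}

/-- Restrained: the image of a definable discrete set `D ⊆ K^n` under a definable function
`g : D → K` is nowhere dense. -/
def Restrained (K : Type) [L.Structure K] [TopologicalSpace K] : Prop :=
  ∀ (n : ℕ) (D : Set (Fin n → K)) (g : D → K), (univ : Set K).Definable L D → DiscreteTopology D →
    DefinableMapOn L D (fun x (_ : Fin 1) => g x) → IsNowhereDense (range g)

/-- `D_Σ` sets: definable sets that are the projection onto the first `m` coordinates of a definable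
closed subset of `K^(m+1)`. -/
def IsDSigma [TopologicalSpace K] {m : ℕ} (X : Set (Fin m → K)) : Prop :=
  (univ : Set K).Definable L X ∧ ∃ Y : Set (Fin (m + 1) → K), (univ : Set K).Definable L Y ∧
    IsClosed Y ∧ X = (fun (z : Fin (m + 1) → K) (j : Fin m) => z (Fin.castSucc j)) '' Y

open Classical in
/-- The largest `e` such that the projection of `X` onto some `e` of the coordinates has nonempty
interior; `⊥` (that is, `-∞`) for the empty set. -/
noncomputable def dim [TopologicalSpace K] {m : ℕ} (X : Set (Fin m → K)) : WithBot ℕ :=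
  (Finset.univ.filter (fun S : Finset (Fin m) =>
    (interior ((fun (x : Fin m → K) (i : S) => x i) '' X)).Nonempty)).sup
      (fun S => ((S.card : ℕ) : WithBot ℕ))

end Defs

open Pool.Agent.H378Z.Gen in
/-- There is a restrained (definably complete) expansion of the real ordered field with a `D_Σ` set
`C` and a definable map `f` on `C` such that `dim f(C) > dim C`. -/
theorem result : ∃ (L : FirstOrder.Language.{0, 0}) (_ : L.Structure ℝ),
    ExpandsOrderedField L ℝ ∧ DefinablyComplete L ℝ ∧ Restrained L ℝ ∧
    ∃ (m n : ℕ) (C : Set (Fin m → ℝ)) (f : C → (Fin n → ℝ)),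
      IsDSigma L C ∧ DefinableMapOn L C f ∧ dim C < dim (range f) := by
  classical
  obtain ⟨f, hf⟩ := exists_generic
  let _ := str f
  refine ⟨lang, str f, ⟨definable_rel f Rel.add _, definable_rel f Rel.mul _,
    definable_rel f Rel.lt _⟩, fun X _ hne hbd => ⟨_, isLUB_csSup hne hbd⟩, ?_,
    1, 2, univ, fun x => ![f (x.1 0), f (x.1 0 + 1)], ⟨definable_univ, univ, definable_univ,
      isClosed_univ, ?_⟩, ?_, ?_⟩
  · intro n D g hD hd _
    have : Finite D := (finite_of_discrete hf hD hd).to_subtype
    exact nowhereDense_of_finite (finite_range g)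
  · symm
    rw [eq_univ_iff_forall]
    intro x
    exact ⟨Fin.snoc x 0, mem_univ _, by funext j; simp⟩
  · have a1 := (definableFun_f f univ (DefinableFun.proj (α := Fin 1 ⊕ Fin 2) (i := Sum.inl 0) lang)).ofPred_eq
      (DefinableFun.proj (i := Sum.inr 0) lang)
    have a2 := (definableFun_f f univ (definableFun_add f univ
      (DefinableFun.proj (α := Fin 1 ⊕ Fin 2) (i := Sum.inl 0) lang)
      (FirstOrder.Language.definableFun_const _ _ (mem_univ 1)))).ofPred_eq
      (DefinableFun.proj (i := Sum.inr 1) lang)
    unfold DefinableMapOn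
    convert a1.inter a2 using 1
    ext v
    simp only [mem_ofPred_eq, mem_inter_iff]
    constructor
    · rintro ⟨x, h1, h2⟩
      rw [h1] at h2
      exact ⟨congrFun h2 0, congrFun h2 1⟩
    · rintro ⟨h1, h2⟩
      refine ⟨⟨fun i => v (Sum.inl i), mem_univ _⟩, rfl, ?_⟩
      funext j
      fin_cases j
      · exact h1
      · exact h2
  · have hr : range (fun x : (univ : Set (Fin 1 → ℝ)) => ![f (x.1 0), f (x.1 0 + 1)]) = univ := by
      rw [eq_univ_iff_forall]
      intro y
      obtain ⟨x, h1, h2⟩ := hf.surj (y 0) (y 1)
      refine ⟨⟨fun _ => x, mem_univ _⟩, ?_⟩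
      funext j
      fin_cases j
      · exact h1
      · exact h2
    rw [hr]
    refine lt_of_le_of_lt (b := ((1 : ℕ) : WithBot ℕ)) ?_ (lt_of_lt_of_le (b := ((2 : ℕ) : WithBot ℕ))
      (by decide) ?_)
    · refine Finset.sup_le fun S _ => ?_
      have : S.card ≤ 1 := by simpa using S.card_le_univ
      exact WithBot.coe_le_coe.2 this
    · refine le_trans (le_of_eq ?_) (Finset.le_sup (f := fun S : Finset (Fin 2) =>
        ((S.card : ℕ) : WithBot ℕ)) (b := Finset.univ) ?_)
      · simp
      · rw [Finset.mem_filter]
        refine ⟨Finset.mem_univ _, ?_⟩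
        have : ((fun (x : Fin 2 → ℝ) (i : (Finset.univ : Finset (Fin 2))) => x i) '' univ) = univ := by
          rw [eq_univ_iff_forall]
          intro y
          exact ⟨fun i => y ⟨i, Finset.mem_univ i⟩, mem_univ _, rfl⟩
        rw [this, interior_univ]
        exact univ_nonempty

end Pool.Agent.Results.MP_ec0437_lc.DimensionRaising
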